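import Mathlib

/-!
# Clause-sets (MP_89ac68_lc): definitions

A literal over the set `V` of variables is a pair `(v, b)`: `(v, true)` is the variable `v` and
`(v, false)` its complement.
-/

set_option autoImplicit false

namespace Pool.Agent.Lib_helper67.HCS

variable {V W : Type}

/-- The complement of a literal. -/
def compl (x : V × Bool) : V × Bool := (x.1, !x.2)

/-- A clause-set over `V`: a finite set of finite sets of literals, none of which contains a literal
together with its complement. -/
structure ClauseSet (V : Type) where
  /-- the clauses -/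
  clauses : Finset (Finset (V × Bool))
  isClause : ∀ C ∈ clauses, ∀ x ∈ C, compl x ∉ C

namespace ClauseSet

/-- The set `var(F)` of the variables that occur in `F` in either sign. -/
def var (F : ClauseSet V) : Set V := {v | ∃ C ∈ F.clauses, (v, true) ∈ C ∨ (v, false) ∈ C}

/-- The number `n(F)` of variables of `F`. -/
noncomputable def n (F : ClauseSet V) : ℕ := F.var.ncard

/-- The number `c(F)` of clauses of `F`. -/
def c (F : ClauseSet V) : ℕ := F.clauses.card

/-- The deficiency `δ(F) = c(F) - n(F)`. -/
noncomputable def deficiency (F : ClauseSet V) : ℤ := F.c - F.n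

/-- Some assignment of truth values to the variables makes at least one literal of every clause
true. -/
def Satisfiable (F : ClauseSet V) : Prop := ∃ φ : V → Bool, ∀ C ∈ F.clauses, ∃ x ∈ C, φ x.1 = x.2

/-- Any two distinct clauses of `F` clash. -/
def Hitting (F : ClauseSet V) : Prop :=
  ∀ C ∈ F.clauses, ∀ D ∈ F.clauses, C ≠ D → ∃ x ∈ C, compl x ∈ D

/-- The number `ld_F(x)` of the clauses of `F` that contain the literal `x`. -/
noncomputable def ld (F : ClauseSet V) (x : V × Bool) : ℕ := {C | C ∈ F.clauses ∧ x ∈ C}.ncard

/-- The variable `v` is singular in `F`: it occurs in `F`, and it occurs exactly once in one of its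
two signs. -/
def Singular (F : ClauseSet V) (v : V) : Prop :=
  v ∈ F.var ∧ (F.ld (v, true) = 1 ∨ F.ld (v, false) = 1)

/-- No variable is singular in `F`. -/
def NonSingular (F : ClauseSet V) : Prop := ∀ v : V, ¬ F.Singular v

/-- `F` and `G` are isomorphic, without complementing variables: a bijection from `var(F)` to
`var(G)` carries `F` onto `G`. -/
def Isomorphic (F : ClauseSet V) (G : ClauseSet W) : Prop :=
  ∃ f : V → W, Set.BijOn f F.var G.var ∧
    ∀ D : Finset (W × Bool), D ∈ G.clauses ↔ ∃ C ∈ F.clauses,
      ∀ y : W × Bool, y ∈ D ↔ ∃ x ∈ C, (f x.1, x.2) = y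

end ClauseSet

end Pool.Agent.Lib_helper67.HCS
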