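import Pool.Agent.Lib_helper67.Hitting
import Pool.Agent.Lib_helper67.HCS.Defs

/-!
# Transfer of clause-sets to the variables `0, 1, 2, ...`, and the bound
-/

set_option autoImplicit false

namespace Pool.Agent.Lib_helper67.HCS

open Pool.Agent.Lib_helper67.Hitting (neg Lit Cl NT Fals vars UHit mem_vars once mem_once main_bound
  tarsi bnd)

namespace ClauseSet

variable {V W : Type}

/-- unsatisfiable, hitting and non-singular -/
def Core (F : ClauseSet V) : Prop := ¬ F.Satisfiable ∧ F.Hitting ∧ F.NonSingular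

theorem mem_var_of {F : ClauseSet V} {C : Finset (V × Bool)} (hC : C ∈ F.clauses) {x : V × Bool}
    (hx : x ∈ C) : x.1 ∈ F.var := by
  obtain ⟨v, b⟩ := x
  cases b
  · exact ⟨C, hC, Or.inr hx⟩
  · exact ⟨C, hC, Or.inl hx⟩

theorem exists_of_mem_var {F : ClauseSet V} {v : V} (h : v ∈ F.var) :
    ∃ C ∈ F.clauses, ∃ x ∈ C, x.1 = v := by
  obtain ⟨C, hC, h | h⟩ := h
  · exact ⟨C, hC, _, h, rfl⟩
  · exact ⟨C, hC, _, h, rfl⟩

theorem var_finite (F : ClauseSet V) : F.var.Finite := by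
  classical
  refine (Finset.finite_toSet (F.clauses.biUnion fun C => C.image Prod.fst)).subset ?_
  intro v hv
  obtain ⟨C, hC, x, hx, rfl⟩ := exists_of_mem_var hv
  simp only [Finset.coe_biUnion, Set.mem_iUnion, Finset.mem_coe, exists_prop]
  exact ⟨C, hC, Finset.mem_image.2 ⟨x, hx, rfl⟩⟩

/-- for clause-sets over `ℕ` the two notions of `var` agree -/
theorem var_eq (F : ClauseSet ℕ) : F.var = (vars F.clauses : Set ℕ) := by
  ext v
  constructor
  · intro h
    obtain ⟨C, hC, x, hx, h⟩ := exists_of_mem_var h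
    exact mem_vars.2 ⟨C, hC, x, hx, h⟩
  · intro h
    obtain ⟨C, hC, x, hx, rfl⟩ := mem_vars.1 h
    exact mem_var_of hC hx

theorem n_eq (F : ClauseSet ℕ) : F.n = (vars F.clauses).card := by
  unfold n
  rw [var_eq, Set.ncard_coe_finset]

open Classical in
/-- the image of a clause -/
noncomputable def img (f : V → W) (C : Finset (V × Bool)) : Finset (W × Bool) :=
  C.image fun x => (f x.1, x.2)

theorem mem_img {f : V → W} {C : Finset (V × Bool)} {y : W × Bool} :
    y ∈ img f C ↔ ∃ x ∈ C, (f x.1, x.2) = y := by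
  classical
  unfold img
  rw [Finset.mem_image]

theorem mem_img_of {F : ClauseSet V} {f : V → W} (hf : Set.InjOn f F.var) {C : Finset (V × Bool)}
    (hC : C ∈ F.clauses) {v : V} (hv : v ∈ F.var) {b : Bool} :
    (f v, b) ∈ img f C ↔ (v, b) ∈ C := by
  rw [mem_img]
  constructor
  · rintro ⟨x, hx, h⟩
    have h1 : f x.1 = f v := congrArg Prod.fst h
    have h2 : x.2 = b := congrArg Prod.snd h
    have h3 := hf (mem_var_of hC hx) hv h1
    rw [← h2, ← h3]
    exact hx
  · intro h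
    exact ⟨_, h, rfl⟩

theorem img_inj {F : ClauseSet V} {f : V → W} (hf : Set.InjOn f F.var)
    {C D : Finset (V × Bool)} (hC : C ∈ F.clauses) (hD : D ∈ F.clauses) (h : img f C = img f D) :
    C = D := by
  ext x
  constructor
  · intro hx
    have hv := mem_var_of hC hx
    have := (mem_img_of hf hC hv (b := x.2)).2 hx
    rw [h] at this
    exact (mem_img_of hf hD hv).1 this
  · intro hx
    have hv := mem_var_of hD hx
    have := (mem_img_of hf hD hv (b := x.2)).2 hx
    rw [← h] at this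
    exact (mem_img_of hf hC hv).1 this

open Classical in
/-- the image of a clause-set under a map that is injective on its variables -/
noncomputable def imgF (F : ClauseSet V) (f : V → W) (hf : Set.InjOn f F.var) : ClauseSet W where
  clauses := F.clauses.image (img f)
  isClause := by
    intro D hD y hy
    rw [Finset.mem_image] at hD
    obtain ⟨C, hC, rfl⟩ := hD
    obtain ⟨x, hx, rfl⟩ := mem_img.1 hy
    intro h
    exact F.isClause C hC x hx ((mem_img_of hf hC (mem_var_of hC hx)).1 h)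

theorem mem_imgF {F : ClauseSet V} {f : V → W} {hf : Set.InjOn f F.var} {D : Finset (W × Bool)} :
    D ∈ (imgF F f hf).clauses ↔ ∃ C ∈ F.clauses, img f C = D := by
  classical
  unfold imgF
  simp only [Finset.mem_image]

theorem var_imgF {F : ClauseSet V} {f : V → W} {hf : Set.InjOn f F.var} :
    (imgF F f hf).var = f '' F.var := by
  ext w
  constructor
  · intro h
    obtain ⟨D, hD, y, hy, rfl⟩ := exists_of_mem_var h
    obtain ⟨C, hC, rfl⟩ := mem_imgF.1 hD
    obtain ⟨x, hx, rfl⟩ := mem_img.1 hy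
    exact ⟨x.1, mem_var_of hC hx, rfl⟩
  · rintro ⟨v, hv, rfl⟩
    obtain ⟨C, hC, x, hx, rfl⟩ := exists_of_mem_var hv
    exact mem_var_of (F := imgF F f hf) (mem_imgF.2 ⟨C, hC, rfl⟩) (mem_img.2 ⟨x, hx, rfl⟩)

theorem n_imgF {F : ClauseSet V} {f : V → W} {hf : Set.InjOn f F.var} :
    (imgF F f hf).n = F.n := by
  unfold n
  rw [var_imgF, hf.ncard_image]

theorem c_imgF {F : ClauseSet V} {f : V → W} {hf : Set.InjOn f F.var} :
    (imgF F f hf).c = F.c := by
  classical
  unfold c imgF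
  refine Finset.card_image_of_injOn ?_
  intro C hC D hD h
  exact img_inj hf hC hD h

theorem deficiency_imgF {F : ClauseSet V} {f : V → W} {hf : Set.InjOn f F.var} :
    (imgF F f hf).deficiency = F.deficiency := by
  unfold deficiency
  rw [c_imgF, n_imgF]

theorem ld_imgF {F : ClauseSet V} {f : V → W} {hf : Set.InjOn f F.var} {v : V} (hv : v ∈ F.var)
    (b : Bool) : (imgF F f hf).ld (f v, b) = F.ld (v, b) := by
  unfold ld
  have h : {D | D ∈ (imgF F f hf).clauses ∧ (f v, b) ∈ D} =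
      img f '' {C | C ∈ F.clauses ∧ (v, b) ∈ C} := by
    ext D
    constructor
    · rintro ⟨h1, h2⟩
      obtain ⟨C, hC, rfl⟩ := mem_imgF.1 h1
      exact ⟨C, ⟨hC, (mem_img_of hf hC hv).1 h2⟩, rfl⟩
    · rintro ⟨C, ⟨hC, h2⟩, rfl⟩
      exact ⟨mem_imgF.2 ⟨C, hC, rfl⟩, (mem_img_of hf hC hv).2 h2⟩
  have hinj : Set.InjOn (img f) {C | C ∈ F.clauses ∧ (v, b) ∈ C} := by
    intro C hC D hD h
    exact img_inj hf hC.1 hD.1 h
  rw [h, hinj.ncard_image]

theorem core_imgF {F : ClauseSet V} {f : V → W} {hf : Set.InjOn f F.var} (hF : F.Core) :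
    (imgF F f hf).Core := by
  obtain ⟨h1, h2, h3⟩ := hF
  refine ⟨?_, ?_, ?_⟩
  · rintro ⟨φ, hφ⟩
    refine h1 ⟨φ ∘ f, fun C hC => ?_⟩
    obtain ⟨y, hy, h⟩ := hφ _ (mem_imgF.2 ⟨C, hC, rfl⟩)
    obtain ⟨x, hx, rfl⟩ := mem_img.1 hy
    exact ⟨x, hx, h⟩
  · intro D hD D' hD' hne
    obtain ⟨C, hC, rfl⟩ := mem_imgF.1 hD
    obtain ⟨C', hC', rfl⟩ := mem_imgF.1 hD'
    obtain ⟨x, hx, hx'⟩ := h2 C hC C' hC' (fun h => hne (by rw [h]))
    exact ⟨_, mem_img.2 ⟨x, hx, rfl⟩, mem_img.2 ⟨_, hx', rfl⟩⟩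
  · rintro w ⟨hw, h⟩
    rw [var_imgF] at hw
    obtain ⟨v, hv, rfl⟩ := hw
    rw [ld_imgF hv, ld_imgF hv] at h
    exact h3 v ⟨hv, h⟩

theorem iso_imgF {F : ClauseSet V} {f : V → W} {hf : Set.InjOn f F.var} :
    F.Isomorphic (imgF F f hf) := by
  refine ⟨f, ?_, ?_⟩
  · rw [var_imgF]
    exact ⟨Set.mapsTo_image f _, hf, Set.surjOn_image f _⟩
  · intro D
    rw [mem_imgF]
    constructor
    · rintro ⟨C, hC, rfl⟩
      exact ⟨C, hC, fun y => mem_img⟩
    · rintro ⟨C, hC, h⟩
      refine ⟨C, hC, ?_⟩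
      ext y
      rw [mem_img, h]

/-- variables are numbered -/
theorem exists_num (F : ClauseSet V) : ∃ f : V → ℕ, Set.InjOn f F.var ∧
    f '' F.var = {i | i < F.n} := by
  classical
  have hfin := F.var_finite
  let S : Finset V := hfin.toFinset
  have hS : ∀ v, v ∈ S ↔ v ∈ F.var := fun v => hfin.mem_toFinset
  have hn : F.n = S.card := by
    unfold n
    rw [Set.ncard_eq_toFinset_card _ hfin]
  let e := S.equivFin
  refine ⟨fun v => if h : v ∈ S then (e ⟨v, h⟩ : ℕ) else 0, ?_, ?_⟩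
  · intro v hv w hw h
    have hv' := (hS v).2 hv
    have hw' := (hS w).2 hw
    simp only [hv', hw', dif_pos] at h
    have := e.injective (Fin.ext h)
    exact congrArg Subtype.val this
  · ext i
    constructor
    · rintro ⟨v, hv, rfl⟩
      have hv' := (hS v).2 hv
      simp only [hv', dif_pos, Set.mem_ofPred_eq, hn]
      exact (e ⟨v, hv'⟩).2
    · intro hi
      have hi' : i < S.card := by rw [← hn]; exact hi
      refine ⟨(e.symm ⟨i, hi'⟩).1, (hS _).1 (e.symm ⟨i, hi'⟩).2, ?_⟩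
      simp

theorem uhit_of {F : ClauseSet ℕ} (hF : F.Core) : UHit F.clauses := by
  obtain ⟨h1, h2, -⟩ := hF
  refine ⟨fun C hC l hl => F.isClause C hC l hl, fun C hC D hD hne => h2 C hC D hD hne, ?_⟩
  intro σ
  by_contra hcon
  push Not at hcon
  refine h1 ⟨σ, fun C hC => ?_⟩
  have := hcon C hC
  unfold Fals at this
  push Not at this
  exact this

theorem once_of {F : ClauseSet ℕ} (hF : F.Core) : once F.clauses = ∅ := by
  rw [Finset.eq_empty_iff_forall_notMem]
  intro y hy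
  obtain ⟨L, hL, hyL, -⟩ := Hitting.once_main hy
  have h1 : F.ld y = 1 := by
    have := mem_once.1 hy
    unfold ld
    rw [← this]
    unfold Hitting.ld
    rw [← Set.ncard_coe_finset]
    congr 1
    ext C
    simp
  refine hF.2.2 y.1 ⟨mem_var_of hL hyL, ?_⟩
  obtain ⟨v, b⟩ := y
  cases b
  · exact Or.inr h1
  · exact Or.inl h1

theorem bnd_eq (k : ℕ) : 6 * bnd k = 4 * k ^ 3 + 9 * k ^ 2 + 11 * k := by
  induction k with
  | zero => simp [bnd]
  | succ k ih =>
    simp only [bnd]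
    nlinarith

/-- the bound over `ℕ` -/
theorem bound_nat {F : ClauseSet ℕ} (hF : F.Core) {k : ℕ} (hk : F.deficiency ≤ k) :
    F.n ≤ bnd k := by
  rw [n_eq]
  refine main_bound k F.clauses (uhit_of hF) (once_of hF) ?_
  unfold deficiency at hk
  rw [n_eq] at hk
  unfold c at hk
  omega

theorem core_bound {F : ClauseSet V} (hF : F.Core) {k : ℕ} (hk : F.deficiency ≤ k) :
    6 * F.n ≤ 4 * k ^ 3 + 9 * k ^ 2 + 11 * k := by
  obtain ⟨f, hf, -⟩ := F.exists_num
  have h := bound_nat (F := imgF F f hf) (core_imgF hF) (k := k) (by rwa [deficiency_imgF])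
  rw [n_imgF] at h
  rw [← bnd_eq]
  omega

/-- the deficiency of an unsatisfiable hitting clause-set is at least one -/
theorem core_def {F : ClauseSet V} (hF : F.Core) : 1 ≤ F.deficiency := by
  obtain ⟨f, hf, -⟩ := F.exists_num
  have h := tarsi (uhit_of (core_imgF (hf := hf) hF))
  have h2 : (imgF F f hf).deficiency = F.deficiency := deficiency_imgF
  rw [← h2]
  unfold deficiency
  rw [n_eq]
  unfold c
  omega

theorem ext_clauses {F G : ClauseSet V} (h : F.clauses = G.clauses) : F = G := by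
  cases F; cases G; cases h; rfl

/-- the clause-sets over the first `N` variables -/
theorem finite_first (N : ℕ) : {F : ClauseSet ℕ | F.var ⊆ {i | i < N}}.Finite := by
  classical
  refine Set.Finite.of_finite_image (f := fun F : ClauseSet ℕ => F.clauses) ?_
    (fun F _ G _ h => ext_clauses h)
  refine (Finset.finite_toSet
    (((Finset.range N) ×ˢ (Finset.univ : Finset Bool)).powerset.powerset)).subset ?_
  rintro _ ⟨F, hF, rfl⟩
  rw [Finset.mem_coe, Finset.mem_powerset]
  intro C hC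
  rw [Finset.mem_powerset]
  intro x hx
  have h1 : x.1 < N := hF (mem_var_of hC hx)
  simp [h1]

theorem finite_list (k : ℕ) : ∃ 𝒢 : Set (ClauseSet ℕ), 𝒢.Finite ∧
    (∀ G ∈ 𝒢, G.Core ∧ G.deficiency ≤ k) ∧
    ∀ (V : Type) (F : ClauseSet V), F.Core → F.deficiency ≤ k → ∃ G ∈ 𝒢, F.Isomorphic G ∧
      F.deficiency = G.deficiency := by
  refine ⟨{G | G.Core ∧ G.deficiency ≤ k ∧ G.var ⊆ {i | i < bnd k}}, ?_, ?_, ?_⟩
  · exact (finite_first (bnd k)).subset fun G hG => hG.2.2
  · exact fun G hG => ⟨hG.1, hG.2.1⟩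
  · intro V F hF hk
    obtain ⟨f, hf, hrange⟩ := F.exists_num
    refine ⟨imgF F f hf, ⟨core_imgF hF, by rwa [deficiency_imgF], ?_⟩, iso_imgF,
      deficiency_imgF.symm⟩
    have h := bound_nat (F := imgF F f hf) (core_imgF hF) (k := k) (by rwa [deficiency_imgF])
    rw [n_imgF] at h
    rw [var_imgF, hrange]
    intro i hi
    exact lt_of_lt_of_le hi h

/-- two clause-sets isomorphic to a third one are isomorphic -/
theorem iso_of_common {F F' : ClauseSet V} {G : ClauseSet W}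
    (h : F.Isomorphic G) (h' : F'.Isomorphic G) : F.Isomorphic F' := by
  classical
  obtain ⟨f, hf, hFG⟩ := h
  obtain ⟨f', hf', hFG'⟩ := h'
  rcases isEmpty_or_nonempty V with hV | hV
  · refine ⟨id, ?_, ?_⟩
    · rw [Set.eq_empty_of_isEmpty F.var, Set.eq_empty_of_isEmpty F'.var]
      exact Set.bijOn_empty _
    · intro D
      have hall : ∀ C : Finset (V × Bool), C = ∅ := fun C => by
        ext x
        exact (hV.false x.1).elim
      constructor
      · intro hD
        have h1 : (∅ : Finset (W × Bool)) ∈ G.clauses :=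
          (hFG' ∅).2 ⟨D, hD, fun y => by
            constructor
            · intro h; simp at h
            · rintro ⟨x, -, -⟩; exact (hV.false x.1).elim⟩
        obtain ⟨C, hC, -⟩ := (hFG ∅).1 h1
        exact ⟨C, hC, fun y => (hV.false y.1).elim⟩
      · rintro ⟨C, hC, -⟩
        have h1 : (∅ : Finset (W × Bool)) ∈ G.clauses :=
          (hFG ∅).2 ⟨C, hC, fun y => by
            constructor
            · intro h; simp at h
            · rintro ⟨x, -, -⟩; exact (hV.false x.1).elim⟩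
        obtain ⟨C', hC', -⟩ := (hFG' ∅).1 h1
        rw [hall D, ← hall C']
        exact hC'
  · let g : W → V := Function.invFunOn f' F'.var
    have hg : ∀ v ∈ F'.var, g (f' v) = v := fun v hv => hf'.invOn_invFunOn.1 hv
    have hg' : ∀ w ∈ G.var, f' (g w) = w := fun w hw => hf'.invOn_invFunOn.2 hw
    have hgb : Set.BijOn g G.var F'.var := hf'.invOn_invFunOn.symm.bijOn
      (fun w hw => by
        obtain ⟨v, hv, rfl⟩ := hf'.surjOn hw
        show g (f' v) ∈ F'.var
        rw [hg v hv]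
        exact hv) hf'.mapsTo
    refine ⟨g ∘ f, hgb.comp hf, ?_⟩
    intro D
    constructor
    · intro hD
      have h1 : img f' D ∈ G.clauses := (hFG' _).2 ⟨D, hD, fun y => mem_img⟩
      obtain ⟨C, hC, h2⟩ := (hFG _).1 h1
      refine ⟨C, hC, fun y => ?_⟩
      constructor
      · intro hy
        obtain ⟨x, hx, h3⟩ := (h2 _).1 (mem_img.2 ⟨y, hy, rfl⟩)
        refine ⟨x, hx, ?_⟩
        have e1 : f x.1 = f' y.1 := congrArg Prod.fst h3
        have e2 : x.2 = y.2 := (Prod.ext_iff.1 h3).2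
        show (g (f x.1), x.2) = y
        rw [e1, e2, hg _ (mem_var_of hD hy)]
      · rintro ⟨x, hx, rfl⟩
        obtain ⟨y, hy, h3⟩ := mem_img.1 ((h2 _).2 ⟨x, hx, rfl⟩)
        have e1 : f' y.1 = f x.1 := congrArg Prod.fst h3
        have e2 : y.2 = x.2 := (Prod.ext_iff.1 h3).2
        show (g (f x.1), x.2) ∈ D
        rw [← e1, ← e2, hg _ (mem_var_of hD hy)]
        exact hy
    · rintro ⟨C, hC, h1⟩
      have h2 : img f C ∈ G.clauses := (hFG _).2 ⟨C, hC, fun y => mem_img⟩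
      obtain ⟨C', hC', h3⟩ := (hFG' _).1 h2
      have : C' = D := by
        ext y
        rw [h1 y]
        constructor
        · intro hy
          obtain ⟨x, hx, h4⟩ := mem_img.1 ((h3 _).2 ⟨y, hy, rfl⟩)
          have e1 : f x.1 = f' y.1 := congrArg Prod.fst h4
          have e2 : x.2 = y.2 := (Prod.ext_iff.1 h4).2
          refine ⟨x, hx, ?_⟩
          show (g (f x.1), x.2) = y
          rw [e1, e2, hg _ (mem_var_of hC' hy)]
        · rintro ⟨x, hx, rfl⟩
          obtain ⟨y, hy, h4⟩ := (h3 _).1 (mem_img.2 ⟨x, hx, rfl⟩)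
          have e1 : f' y.1 = f x.1 := congrArg Prod.fst h4
          have e2 : y.2 = x.2 := (Prod.ext_iff.1 h4).2
          show (g (f x.1), x.2) ∈ C'
          rw [← e1, ← e2, hg _ (mem_var_of hC' hy)]
          exact hy
      rw [← this]
      exact hC'

/-- finitely many isomorphism classes -/
theorem finite_classes (V : Type) (k : ℕ) : ∃ 𝒢 : Set (ClauseSet V), 𝒢.Finite ∧
    (∀ G ∈ 𝒢, ¬ G.Satisfiable ∧ G.Hitting ∧ G.NonSingular ∧ G.deficiency ≤ k) ∧
    ∀ F : ClauseSet V, ¬ F.Satisfiable → F.Hitting → F.NonSingular → F.deficiency ≤ k →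
      ∃ G ∈ 𝒢, F.Isomorphic G := by
  classical
  obtain ⟨𝒢, hfin, -, h𝒢⟩ := finite_list k
  have key : ∀ F : ClauseSet V, F.Core ∧ F.deficiency ≤ k → ∃ G ∈ 𝒢, F.Isomorphic G :=
    fun F hF => (h𝒢 V F hF.1 hF.2).imp fun G h => ⟨h.1, h.2.1⟩
  let P : ClauseSet ℕ → Prop := fun G => ∃ F : ClauseSet V, (F.Core ∧ F.deficiency ≤ k) ∧
    F.Isomorphic G
  let g : {G // G ∈ 𝒢 ∧ P G} → ClauseSet V := fun G => G.2.2.choose
  have hg : ∀ G : {G // G ∈ 𝒢 ∧ P G}, ((g G).Core ∧ (g G).deficiency ≤ k) ∧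
      (g G).Isomorphic G.1 := fun G => G.2.2.choose_spec
  have hf2 : Finite {G // G ∈ 𝒢 ∧ P G} := (hfin.subset fun G hG => hG.1 : {G | G ∈ 𝒢 ∧ P G}.Finite)
  refine ⟨Set.range g, Set.finite_range g, ?_, ?_⟩
  · rintro _ ⟨G, rfl⟩
    obtain ⟨⟨⟨h1, h2, h3⟩, h4⟩, -⟩ := hg G
    exact ⟨h1, h2, h3, h4⟩
  · intro F h1 h2 h3 h4
    obtain ⟨G, hG, hFG⟩ := key F ⟨⟨h1, h2, h3⟩, h4⟩
    exact ⟨_, ⟨⟨G, hG, F, ⟨⟨h1, h2, h3⟩, h4⟩, hFG⟩, rfl⟩, iso_of_common hFG (hg _).2⟩

end ClauseSet

end Pool.Agent.Lib_helper67.HCS
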